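import Pool.Agent.Q229.NR.Asym

/-!
# A Boolean predicate with non-redundancy of order exactly `n ^ (3 / 2)`
-/

set_option autoImplicit false

namespace Pool.Agent.Results.MP_49e1e0_lc.ThreeHalves

open Q229.NR

/-- There is a Boolean predicate of arity at least four (namely the explicit predicate `P6` of
arity six) whose non-redundancy is of order exactly `n ^ β` for a rational number `β` that is not
an integer (namely `β = 3 / 2`). -/
theorem result :
    (∃ (r : ℕ) (P : Set (Fin r → Bool)) (β : ℚ), 4 ≤ r ∧ (∀ k : ℕ, β ≠ k) ∧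
      ThetaPow P (β : ℝ)) ∧
    ThetaPow P6 (((3 / 2 : ℚ)) : ℝ) := by
  refine ⟨⟨6, P6, 3 / 2, by norm_num, ?_, theta_P6⟩, theta_P6⟩
  intro k hk
  have h : (3 : ℚ) = ((2 * k : ℕ) : ℚ) := by
    push_cast
    rw [← hk]
    norm_num
  have h2 : 3 = 2 * k := by exact_mod_cast h
  omega

end Pool.Agent.Results.MP_49e1e0_lc.ThreeHalves
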